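import Pool.Agent.helper83.P2.SpecV

set_option autoImplicit false

open scoped ContDiff Topology
open MeasureTheory Filter Set Metric MvPolynomial Pool.Agent.helper37.QA Pool.Agent.P2

namespace Pool.Agent.P2V

private theorem VBK_cone_mono {S T : Set (PP 2)} (h : S ⊆ T) : cone S ⊆ cone T := fun _ hx => ⟨hx.1, h hx.2⟩

private theorem VBK_anti {d : ℕ} {f : Endo 2 d} {Us : ℕ → Set (PP 2)} {K : Set (PP 2)} (hC : Core f Us K)
    {J J' : ℕ} (h : J ≤ J') : Us J' ⊆ Us J := by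
  induction J', h using Nat.le_induction with
  | base => exact subset_rfl
  | succ n _ ih => exact (subset_closure.trans (hC.anti n)).trans ih

private theorem VBK_good {d : ℕ} {f : Endo 2 d} {Us : ℕ → Set (PP 2)} {K : Set (PP 2)} (hC : Core f Us K)
    (J : ℕ) : Good0 f (Us J) :=
  ⟨hC.trap J, fun Z h h0 h1 hm => hC.good.2 Z h h0 h1 (closure_mono (VBK_anti hC (Nat.zero_le J)) hm)⟩

private theorem VBK_near (r : ℝ) (j : Fin 3) (v : ℂ) (hr : 0 < r) (hv : ‖v‖ < r) :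
    Near r (adE one3 2 j v) := by
  intro k l
  unfold adE
  by_cases h : k = 2 ∧ l = j
  · rw [if_pos h]
    have : one3 k l + v - one3 k l = v := by ring
    rw [this]
    exact hv
  · rw [if_neg h]
    have : one3 k l + 0 - one3 k l = 0 := by ring
    rw [this, norm_zero]
    exact hr

private theorem VBK_lognq (x y : ℝ) (hx : 0 < x) (h1 : 1 / 4 * x ≤ y) (h2 : y ≤ 4 * x) :
    |1 / 2 * Real.log y - 1 / 2 * Real.log x| ≤ 1 := by
  have hy : 0 < y := by linarith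
  have hl4 : Real.log 4 ≤ 2 := by
    have h3 : Real.log 4 = 2 * Real.log 2 := by
      rw [show (4 : ℝ) = 2 ^ 2 by norm_num, Real.log_pow]
      norm_num
    have h4 := Real.log_two_lt_d9
    rw [h3]
    linarith
  have k1 : Real.log y ≤ Real.log 4 + Real.log x := by
    rw [← Real.log_mul (by norm_num) hx.ne']
    exact Real.log_le_log hy h2
  have k2 : Real.log x ≤ Real.log 4 + Real.log y := by
    rw [← Real.log_mul (by norm_num) hy.ne']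
    exact Real.log_le_log hx (by linarith)
  rw [abs_le]
  constructor <;> linarith

private theorem VBK_exl (r e C α : ℝ) (hr : 0 < r) (he : 0 < e) (hC : 1 ≤ C) (hα : 0 < α) :
    ∃ l0 : ℕ, ∀ l : ℕ, l0 ≤ l → 16 * (1 / 2 : ℝ) ^ l ≤ r ∧ 100 * C * ((1 / 2 : ℝ) ^ l) ^ α ≤ e / 8 := by
  have hC0 : 0 < C := by linarith
  have hx : 0 < e / (800 * C) := by positivity
  have hy : 0 < (e / (800 * C)) ^ (1 / α) := Real.rpow_pos_of_pos hx _
  obtain ⟨n, hn⟩ := exists_pow_lt_of_lt_one (lt_min (show 0 < r / 16 by positivity) hy)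
    (by norm_num : (1 / 2 : ℝ) < 1)
  refine ⟨n, fun l hl => ?_⟩
  have h1 : (1 / 2 : ℝ) ^ l ≤ (1 / 2 : ℝ) ^ n := pow_le_pow_of_le_one (by norm_num) (by norm_num) hl
  have h2 := lt_of_le_of_lt h1 hn
  constructor
  · have := lt_of_lt_of_le h2 (min_le_left _ _)
    linarith
  · have h3 := lt_of_lt_of_le h2 (min_le_right _ _)
    have h4 : ((1 / 2 : ℝ) ^ l) ^ α ≤ ((e / (800 * C)) ^ (1 / α)) ^ α :=
      Real.rpow_le_rpow (by positivity) h3.le hα.le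
    rw [← Real.rpow_mul hx.le, one_div_mul_cancel hα.ne', Real.rpow_one] at h4
    calc 100 * C * ((1 / 2 : ℝ) ^ l) ^ α ≤ 100 * C * (e / (800 * C)) :=
          mul_le_mul_of_nonneg_left h4 (by positivity)
      _ = e / 8 := by field_simp; norm_num

private theorem VBK_mhalf (e C x : ℝ) (he : 0 < e) (hC : 1 ≤ C) (hx : (800 * C / e) ^ 2 ≤ x) :
    100 * (C * x ^ (-(1 / 2) : ℝ)) ≤ e / 8 := by
  have hC0 : 0 < C := by linarith
  have h0 : 0 < 800 * C / e := by positivity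
  have hx0 : 0 < x := lt_of_lt_of_le (by positivity) hx
  have h1 : 800 * C / e ≤ √x := Real.le_sqrt_of_sq_le hx
  have h2 : x ^ (-(1 / 2) : ℝ) = (√x)⁻¹ := by
    rw [Real.rpow_neg hx0.le, Real.sqrt_eq_rpow]
  have h3 : (√x)⁻¹ ≤ (800 * C / e)⁻¹ := inv_anti₀ h0 h1
  rw [h2]
  calc 100 * (C * (√x)⁻¹) ≤ 100 * (C * (800 * C / e)⁻¹) := by
        apply mul_le_mul_of_nonneg_left _ (by norm_num)
        exact mul_le_mul_of_nonneg_left h3 hC0.le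
    _ = e / 8 := by
        rw [inv_div]
        field_simp
        norm_num

private theorem VBK_A (hUN1 : UN1_stmt) (hRAD : RAD_stmt) (hDMS : DMS_stmt) (hVIT : VIT_stmt) (hVPT : VPT_stmt)
    (d : ℕ) (f : Endo 2 d) (Us : ℕ → Set (PP 2)) (K : Set (PP 2)) (hd : 2 ≤ d) (hC : Core f Us K)
    (Kb a : ℝ) (hKb : 0 < Kb)
    (h1 : ∀ ε : ℝ, 0 < ε → ∃ (J0 m0 : ℕ) (τ : ℝ), 0 < τ ∧ 1 ≤ m0 ∧ ∀ m ≥ m0, ∃ M : ℕ, ∀ (N : ℕ) (Z : ℂ → E3),
      (N, Z) ∈ Cls f Us J0 (Kb + τ) M → Jf f N (Psf f 1 m N) Z ≤ m * (a + ε))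
    (κ : ℝ) (hκ : 0 < κ) (hκ1 : κ ≤ 1 / 10) (e : ℝ) (he : 0 < e) :
    ∃ (m0 J0 l0 : ℕ), 1 ≤ m0 ∧ ∀ l m : ℕ, ∃ Θ : ℝ, 0 ≤ Θ ∧ (l0 ≤ l → m0 ≤ m → ∀ (J N i : ℕ) (Z : ℂ → E3),
      J0 ≤ J → 1 ≤ i → Θ + i ≤ N → Dsc (Us J) Z → Θ ≤ mass f N Z →
      (∀ z ∈ ball (0 : ℂ) 1, |un f N (Z z)| ≤ Kb * mass f N Z) → ∀ (n : ℕ) (A : Fin n → ID),
      Fam (fun z => It f i (Z z)) κ A →
      ((d : ℝ) ^ i * mass f N Z)⁻¹ * ∑ a : Fin n, eta ((A a).g 0) ^ 2 *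
        QR f m (1 * m) ((1 / 2 : ℝ) ^ l) (N - i) (A a).ι (A a).c κ (A a).γ ≤
      100 * (m * (a + e / 1000) - Tf f 1 m (N - i) (fun z => It f i (Z z))) + 3 / 8 * e * m) := by
  obtain ⟨J0, m0', τ, hτ, hm0', hM⟩ := h1 (e / 1000) (by positivity)
  have hGU : Good0 f (Us J0) := VBK_good hC J0
  obtain ⟨r, hr, hr1, hRad⟩ := hRAD.1 d f (Us J0) (hC.trap J0)
  obtain ⟨C1, α, hC1, hα, hP⟩ := hVPT d f (Us J0) r κ 1 Kb hd hGU hr hr1 hRad hκ hκ1 zero_le_one hKb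
  obtain ⟨CD, hCD0, hD1, -, -, -⟩ := hDMS d f (Us J0) r hd hGU hr hr1 hRad
  obtain ⟨CU, hCU0, -, hU2, -, -⟩ := hUN1 d f (Us J0) hd hGU
  obtain ⟨l0, hl0⟩ := VBK_exl r e C1 α hr he hC1 hα
  refine ⟨max m0' ⌈800 * C1 / e⌉₊, J0, l0, le_trans hm0' (le_max_left _ _), ?_⟩
  intro l m
  by_cases hlm : l0 ≤ l ∧ max m0' ⌈800 * C1 / e⌉₊ ≤ m
  swap
  · exact ⟨0, le_rfl, fun g1 g2 => absurd ⟨g1, g2⟩ hlm⟩
  obtain ⟨hl, hm⟩ := hlm
  obtain ⟨h16, hsα⟩ := hl0 l hl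
  have hs : 0 < (1 / 2 : ℝ) ^ l := by positivity
  obtain ⟨C2, hC2, hP2⟩ := hP ((1 / 2 : ℝ) ^ l) m hs h16
  obtain ⟨M, hMM⟩ := hM m (le_trans (le_max_left _ _) hm)
  have hm1 : 1 ≤ m := le_trans hm0' (le_trans (le_max_left _ _) hm)
  have hm1' : (1 : ℝ) ≤ m := by exact_mod_cast hm1
  have hmC : 100 * C1 ≤ e / 8 * m := by
    have g1 : 800 * C1 / e ≤ ⌈800 * C1 / e⌉₊ := Nat.le_ceil _
    have g2 : ((⌈800 * C1 / e⌉₊ : ℕ) : ℝ) ≤ m := by exact_mod_cast le_trans (le_max_right _ _) hm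
    have g3 : 800 * C1 / e ≤ m := g1.trans g2
    rw [div_le_iff₀ he] at g3
    linarith
  have hq0 : 0 ≤ (Kb * CD + 2 * CU + 1) / τ := by positivity
  have hC20 : 0 ≤ C2 := by linarith
  refine ⟨C2 + (800 * C2 / e) ^ 2 + CD + M + (Kb * CD + 2 * CU + 1) / τ + m, by positivity, ?_⟩
  intro _ _ J N i Z hJ hi hN hDsc hmass hun n A hFam
  have hsq0 : 0 ≤ (800 * C2 / e) ^ 2 := by positivity
  have hM0 : (0 : ℝ) ≤ M := Nat.cast_nonneg _
  have hm00 : (0 : ℝ) ≤ m := Nat.cast_nonneg _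
  have hiN' : (i : ℝ) + m + M ≤ N := by linarith
  have hiN'' : i + m + M ≤ N := by exact_mod_cast hiN'
  have hiN : i ≤ N := by omega
  have hmN : m ≤ N - i := by omega
  have hMN : M ≤ N - i := by omega
  have hDscU : Dsc (Us J0) Z := ⟨hDsc.1, fun z hz => VBK_cone_mono (VBK_anti hC hJ) (hDsc.2 z hz)⟩
  obtain ⟨v1, -, v3⟩ := hVIT d f (Us J0) hd hGU i N hiN
  obtain ⟨y1, y2, -, y4, -, -⟩ := v3 Z hDscU
  have hmpos : 0 < mass f N Z := by linarith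
  have hd1 : (1 : ℝ) ≤ (d : ℝ) ^ i := by
    apply one_le_pow₀
    exact_mod_cast (by omega : 1 ≤ d)
  have hmY : mass f N Z ≤ mass f (N - i) (fun z => It f i (Z z)) := by
    rw [y4]
    nlinarith
  have hYD := y2 hi
  have hunY : ∀ z ∈ ball (0 : ℂ) 1, |un f (N - i) (It f i (Z z))| ≤
      Kb * mass f (N - i) (fun z => It f i (Z z)) := by
    intro z hz
    rw [(v1 (Z z)).2, y4, abs_mul, abs_of_nonneg (by positivity : (0 : ℝ) ≤ (d : ℝ) ^ i)]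
    calc (d : ℝ) ^ i * |un f N (Z z)| ≤ (d : ℝ) ^ i * (Kb * mass f N Z) :=
          mul_le_mul_of_nonneg_left (hun z hz) (by positivity)
      _ = Kb * ((d : ℝ) ^ i * mass f N Z) := by ring
  have hJf : ∀ (ι : Fin 2), ∀ v ∈ ball (0 : ℂ) (2 * (1 / 2 : ℝ) ^ l),
      Jf f (N - i) (Psf f 1 m (N - i)) (Av ι v (fun z => It f i (Z z))) ≤ m * (a + e / 1000) := by
    intro ι v hv
    apply hMM
    rw [mem_ball, dist_zero_right] at hv
    have hnear : Near r (adE one3 2 ι.castSucc v) := VBK_near r _ v hr (by linarith)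
    have hDA : Dsc (Us J0) (Av ι v (fun z => It f i (Z z))) :=
      hRAD.2.2.2 (Us J0) (fun z => It f i (Z z)) r _ _ hRad hnear hYD
    have hmA := hD1 (N - i) (fun z => It f i (Z z)) _ hYD hnear
    change |mass f (N - i) (Av ι v (fun z => It f i (Z z))) - mass f (N - i) (fun z => It f i (Z z))| ≤ CD at hmA
    rw [abs_le] at hmA
    refine ⟨hDA, hMN, ?_, ?_⟩
    · simp only
      linarith
    · intro z hz
      simp only
      have g1 : It f i (Z z) ∈ cone (closure (Us J0)) := VBK_cone_mono subset_closure (y1.2 z hz)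
      have g2 : Av ι v (fun z => It f i (Z z)) z ∈ cone (closure (Us J0)) :=
        VBK_cone_mono subset_closure (hDA.2 z hz)
      have u1 := hU2 (N - i) _ g1
      have u2 := hU2 (N - i) _ g2
      have hnear' : Near (1 / 100) (adE one3 2 ι.castSucc v) := fun k l => lt_of_lt_of_le (hnear k l) hr1
      obtain ⟨-, -, n1, n2, -, -⟩ := hRAD.2.1 _ hnear' (It f i (Z z)) (It f i (Z z))
      have hnq : 0 < nq (It f i (Z z)) := by
        obtain ⟨hne, -⟩ := g1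
        unfold nq
        obtain ⟨k, hk⟩ := Function.ne_iff.mp hne
        exact Finset.sum_pos' (fun _ _ => Complex.normSq_nonneg _) ⟨k, Finset.mem_univ k, Complex.normSq_pos.mpr hk⟩
      have u3 := VBK_lognq _ _ hnq n1 n2
      change |1 / 2 * Real.log (nq (Av ι v (fun z => It f i (Z z)) z)) - 1 / 2 * Real.log (nq (It f i (Z z)))| ≤ 1 at u3
      have u4 := hunY z hz
      rw [abs_le] at u1 u2 u3 u4
      have hτm : Kb * CD + 2 * CU + 1 ≤ τ * mass f (N - i) (Av ι v (fun z => It f i (Z z))) := by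
        have w1 : (Kb * CD + 2 * CU + 1) / τ ≤ mass f (N - i) (Av ι v (fun z => It f i (Z z))) := by linarith
        rw [div_le_iff₀ hτ] at w1
        linarith
      have w2 : Kb * mass f (N - i) (fun z => It f i (Z z)) ≤
          Kb * (mass f (N - i) (Av ι v (fun z => It f i (Z z))) + CD) :=
        mul_le_mul_of_nonneg_left (by linarith) hKb.le
      rw [abs_le]
      constructor <;> linarith
  have key := hP2 (N - i) (fun z => It f i (Z z)) (m * (a + e / 1000)) n A hmN hYD (by linarith) hunY hJf hFam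
  rw [y4] at key
  have hmass2 : (800 * C2 / e) ^ 2 ≤ (d : ℝ) ^ i * mass f N Z := by
    rw [← y4]
    linarith
  have t1 := VBK_mhalf e C2 _ he hC2 hmass2
  have t2 : m * (100 * C1 * ((1 / 2 : ℝ) ^ l) ^ α) ≤ m * (e / 8) := mul_le_mul_of_nonneg_left hsα hm00
  have t3 : e / 8 ≤ e / 8 * m := by nlinarith
  refine key.trans ?_
  have t4 : 100 * (m * (a + e / 1000) - Tf f 1 m (N - i) (fun z => It f i (Z z)) +
      C1 * (1 + m * ((1 / 2 : ℝ) ^ l) ^ α) + C2 * ((d : ℝ) ^ i * mass f N Z) ^ (-(1 / 2) : ℝ)) =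
      100 * (m * (a + e / 1000) - Tf f 1 m (N - i) (fun z => It f i (Z z))) + 100 * C1 +
        m * (100 * C1 * ((1 / 2 : ℝ) ^ l) ^ α) + 100 * (C2 * ((d : ℝ) ^ i * mass f N Z) ^ (-(1 / 2) : ℝ)) := by
    ring
  rw [t4]
  linarith

theorem VBK (hUN1 : UN1_stmt) (hRAD : RAD_stmt) (hDMS : DMS_stmt) (hVIT : VIT_stmt) (hVTT : VTT_stmt)
    (hVNM : VNM_stmt) (hVPT : VPT_stmt) : VBK_stmt := by
  intro d f Us K hd hC
  obtain ⟨Kb, a, hKb, h1, h2⟩ := hVNM d f Us K 1 hd hC zero_le_one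
  refine ⟨Kb, hKb, ?_⟩
  intro κ hκ hκ1
  choose m0 J0 l0 hm0 Θ hΘ0 hΘ using fun k : ℕ =>
    VBK_A hUN1 hRAD hDMS hVIT hVPT d f Us K hd hC Kb a hKb h1 κ hκ hκ1 ((1 / 2 : ℝ) ^ k) (by positivity)
  refine ⟨m0, J0, l0, hm0, ?_⟩
  intro m1 J L0 M0 l1 k1
  have hG0 : Good0 f (Us 0) := hC.good
  obtain ⟨CT, hCT, hT⟩ := hVTT d f (Us 0) 1 hd hG0 zero_le_one
  obtain ⟨L1, hL1⟩ := h2 ((1 / 2 : ℝ) ^ k1 / 1000) (by positivity) J
  obtain ⟨x0, hx0⟩ : ∃ x0 : ℝ, x0 = 800 * 2 ^ k1 * ((|a| + 1) + 8 * CT * m1) := ⟨_, rfl⟩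
  obtain ⟨q, hqx⟩ : ∃ q : ℕ, x0 ≤ (q : ℝ) := ⟨_, Nat.le_ceil x0⟩
  obtain ⟨L, hLdef⟩ : ∃ L : ℕ, L = L0 + L1 + m1 + 1 + q := ⟨_, rfl⟩
  obtain ⟨S, hSdef⟩ : ∃ S : ℝ, S = ∑ k ∈ Finset.range (k1 + 1), ∑ l ∈ Finset.range (l1 + 1),
      ∑ m ∈ Finset.range (m1 + 1), Θ k l m := ⟨_, rfl⟩
  have hS : ∀ k l m, k ≤ k1 → l ≤ l1 → m ≤ m1 → Θ k l m ≤ S := by
    intro k l m hk hl hm
    rw [hSdef]
    calc Θ k l m ≤ ∑ m ∈ Finset.range (m1 + 1), Θ k l m :=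
          Finset.single_le_sum (f := fun m => Θ k l m) (fun _ _ => hΘ0 _ _ _) (Finset.mem_range.mpr (by omega))
      _ ≤ ∑ l ∈ Finset.range (l1 + 1), ∑ m ∈ Finset.range (m1 + 1), Θ k l m :=
          Finset.single_le_sum (f := fun l => ∑ m ∈ Finset.range (m1 + 1), Θ k l m)
            (fun _ _ => Finset.sum_nonneg fun _ _ => hΘ0 _ _ _) (Finset.mem_range.mpr (by omega))
      _ ≤ _ :=
          Finset.single_le_sum (f := fun k => ∑ l ∈ Finset.range (l1 + 1), ∑ m ∈ Finset.range (m1 + 1), Θ k l m)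
            (fun _ _ => Finset.sum_nonneg fun _ _ => Finset.sum_nonneg fun _ _ => hΘ0 _ _ _)
            (Finset.mem_range.mpr (by omega))
  obtain ⟨Mn, hMn⟩ : ∃ Mn : ℕ, Mn = ⌈S⌉₊ + L + m1 + M0 + 1 := ⟨_, rfl⟩
  obtain ⟨N, Z, ⟨hZ1, hZ2, hZ3, hZ4⟩, hTL⟩ := hL1 L (by omega) Mn
  simp only at hZ1 hZ2 hZ3 hZ4
  have hSM : S ≤ (⌈S⌉₊ : ℝ) := Nat.le_ceil S
  have hMn' : (Mn : ℝ) = ⌈S⌉₊ + L + m1 + M0 + 1 := by rw [hMn]; push_cast; ring
  have hN' : (Mn : ℝ) ≤ N := by exact_mod_cast hZ2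
  have hL00 : (0 : ℝ) ≤ L := Nat.cast_nonneg _
  have hm10 : (0 : ℝ) ≤ m1 := Nat.cast_nonneg _
  have hM00 : (0 : ℝ) ≤ M0 := Nat.cast_nonneg _
  have hceil0 : (0 : ℝ) ≤ (⌈S⌉₊ : ℝ) := Nat.cast_nonneg _
  have hmpos : 0 < mass f N Z := by linarith
  refine ⟨L, N, Z, by omega, by omega, hZ1, by linarith, hZ4, ?_⟩
  intro k l hk hJ hl hl' n A hFam m hm hm'
  have hm1 : 1 ≤ m := le_trans (hm0 k) hm
  have hm1r : (1 : ℝ) ≤ m := by exact_mod_cast hm1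
  have hmm1 : (m : ℝ) ≤ m1 := by exact_mod_cast hm'
  have hLm : m ≤ L := by omega
  have hLN : L + m ≤ N := by omega
  have hL1' : 1 ≤ L := by omega
  have hDsc0 : Dsc (Us 0) Z := ⟨hZ1.1, fun z hz => VBK_cone_mono (VBK_anti hC (Nat.zero_le J)) (hZ1.2 z hz)⟩
  obtain ⟨e, hedef⟩ : ∃ e : ℝ, e = (1 / 2 : ℝ) ^ k := ⟨_, rfl⟩
  have he0 : 0 < e := by rw [hedef]; positivity
  have hek : (1 / 2 : ℝ) ^ k1 ≤ e := by
    rw [hedef]
    exact pow_le_pow_of_le_one (by norm_num) (by norm_num) hk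
  have hk10 : 0 < (1 / 2 : ℝ) ^ k1 := by positivity
  -- telescoping
  obtain ⟨hT1, -⟩ := hT m L N Z hm1 hLm hLN hDsc0 hmpos
  have hT0 : |Tf f 1 m (N - 0) (fun z => It f 0 (Z z))| ≤ CT * (m + 1) := by
    obtain ⟨-, -, v3⟩ := hVIT d f (Us 0) hd hG0 0 N (Nat.zero_le N)
    obtain ⟨y1, -, -, y4, -, -⟩ := v3 Z hDsc0
    have hmp : 0 < mass f (N - 0) (fun z => It f 0 (Z z)) := by
      rw [y4]
      positivity
    exact (hT m L (N - 0) (fun z => It f 0 (Z z)) hm1 hLm (by omega) y1 hmp).2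
  rw [abs_le] at hT0
  have hsplit : ∑ i ∈ Finset.range L, Tf f 1 m (N - i) (fun z => It f i (Z z)) =
      Tf f 1 m (N - 0) (fun z => It f 0 (Z z)) + ∑ i ∈ Finset.Ico 1 L, Tf f 1 m (N - i) (fun z => It f i (Z z)) := by
    rw [Finset.range_eq_Ico, Finset.sum_eq_sum_Ico_succ_bot (by omega)]
  rw [hsplit] at hT1
  -- the sum of the inequalities
  have hsum : ∑ i ∈ Finset.Ico 1 L, (((d : ℝ) ^ i * mass f N Z)⁻¹ * ∑ a : Fin (n i), eta ((A i a).g 0) ^ 2 *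
      QR f m (1 * m) ((1 / 2 : ℝ) ^ l) (N - i) (A i a).ι (A i a).c κ (A i a).γ) ≤
      ∑ i ∈ Finset.Ico 1 L, (100 * (m * (a + e / 1000) - Tf f 1 m (N - i) (fun z => It f i (Z z))) +
        3 / 8 * e * m) := by
    refine Finset.sum_le_sum (fun i hi => ?_)
    rw [Finset.mem_Ico] at hi
    have hΘS := hS k l m hk hl' hm'
    have hiL : (i : ℝ) ≤ L := by exact_mod_cast hi.2.le
    rw [hedef]
    exact hΘ k l m hl hm J N i Z hJ hi.1 (by linarith) hZ1 (by linarith) hZ4 (n i) (A i) (hFam i)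
  refine hsum.trans ?_
  rw [Finset.sum_add_distrib, ← Finset.mul_sum, Finset.sum_sub_distrib, Finset.sum_const, Finset.sum_const,
    Nat.card_Ico, nsmul_eq_mul, nsmul_eq_mul, Nat.cast_sub hL1', Nat.cast_one]
  have hTL' : (m : ℝ) * (L * (a - (1 / 2 : ℝ) ^ k1 / 1000)) ≤ m * Tf f 1 L N Z :=
    mul_le_mul_of_nonneg_left hTL (by linarith)
  have hlb : (m : ℝ) * (L * (a - (1 / 2 : ℝ) ^ k1 / 1000)) - CT * (m + 1) ^ 2 - CT * (m + 1) ≤
      ∑ i ∈ Finset.Ico 1 L, Tf f 1 m (N - i) (fun z => It f i (Z z)) := by linarith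
  -- the choice of L
  have hLbig : 800 * 2 ^ k1 * ((|a| + 1) + 8 * CT * m1) ≤ (L : ℝ) := by
    have g2 : (q : ℝ) ≤ (L : ℝ) := Nat.cast_le.mpr (by omega)
    rw [← hx0]
    exact hqx.trans g2
  have hL2 : 800 * ((|a| + 1) + 8 * CT * m1) ≤ (1 / 2 : ℝ) ^ k1 * L := by
    have g1 := mul_le_mul_of_nonneg_left hLbig hk10.le
    have g2 : (1 / 2 : ℝ) ^ k1 * (800 * 2 ^ k1 * ((|a| + 1) + 8 * CT * m1)) =
        800 * ((|a| + 1) + 8 * CT * m1) * ((1 / 2 : ℝ) ^ k1 * 2 ^ k1) := by ring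
    have g3 : (1 / 2 : ℝ) ^ k1 * 2 ^ k1 = 1 := by
      rw [← mul_pow]
      norm_num
    rw [g2, g3, mul_one] at g1
    exact g1
  have hL3 : 800 * ((|a| + 1) + 8 * CT * m1) ≤ e * L := hL2.trans (mul_le_mul_of_nonneg_right hek hL00)
  have hL4 : 800 * ((|a| + 1) + 8 * CT * m) * m ≤ e * L * m := by
    apply mul_le_mul_of_nonneg_right _ (by linarith)
    have : 8 * CT * m ≤ 8 * CT * m1 := mul_le_mul_of_nonneg_left hmm1 (by linarith)
    linarith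
  have hsqm : CT * ((m : ℝ) + 1) ^ 2 ≤ CT * (4 * m ^ 2) := by
    apply mul_le_mul_of_nonneg_left _ (by linarith)
    nlinarith
  have hlinm : CT * ((m : ℝ) + 1) ≤ CT * (4 * m ^ 2) := by
    apply mul_le_mul_of_nonneg_left _ (by linarith)
    nlinarith
  have habs : -(a * m) ≤ |a| * m := by
    have : -a ≤ |a| := neg_le_abs a
    nlinarith
  have hee : (m : ℝ) * (L * ((1 / 2 : ℝ) ^ k1 / 1000)) ≤ m * (L * (e / 1000)) := by
    apply mul_le_mul_of_nonneg_left _ (by linarith)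
    apply mul_le_mul_of_nonneg_left _ hL00
    linarith
  have hem : 0 ≤ e * m := by positivity
  have hemL : 0 ≤ e * m * L := by positivity
  rw [← hedef]
  nlinarith [hlb, hL4, hsqm, hlinm, habs, hee, hem, hemL]

end Pool.Agent.P2V
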